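import Pool.Agent.H81.GD.Conic
import Pool.Graph.R_pool_sql_team_seeded_35f281b4.K7.H65.G4.Curve

set_option autoImplicit false
set_option linter.unusedSectionVars false

/-!
# The automorphisms of the curve `y² = D (2 x⁶ - 30 x⁴ + 150 x² + 6)`

`σ (x, y) = (-x, y)` and `ρ (x, y) = ((x + 3) / (1 - x), - 8 y / (1 - x)³)` generate a group isomorphic to the
symmetric group of degree three.
-/

namespace Pool.Agent.H81.GD

open Polynomial Pool.Agent.TH943.HJ Pool.Agent.K7.H65
open Pool.Agent.K7.H65.G4 (NS ns_of_lead dedekind isDomain norm_formula)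

/-! ### Algebra -/

/-- generators of the affine ring without the points `x = ± 1` -/
structure Gen (B : Type) [CommRing B] (d : B) where
  x : B
  y : B
  i1 : B
  i2 : B
  h1 : (x - 1) * i1 = 1
  h2 : (x + 1) * i2 = 1
  hy : y ^ 2 = d * (2 * x ^ 6 - 30 * x ^ 4 + 150 * x ^ 2 + 6)

section gen

variable {B : Type} [CommRing B] {d : B} (G : Gen B d)

theorem Gen.rho_sq : (8 * G.i1 ^ 3 * G.y) ^ 2 = d * (2 * (-(G.x + 3) * G.i1) ^ 6 -
    30 * (-(G.x + 3) * G.i1) ^ 4 + 150 * (-(G.x + 3) * G.i1) ^ 2 + 6) := by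
  have h1 := G.h1
  have hy := G.hy
  generalize G.x = x at *
  generalize G.y = y at *
  generalize G.i1 = t at *
  have a2 : (x - 1) ^ 2 * t ^ 2 = 1 := by rw [← mul_pow, h1, one_pow]
  have a4 : (x - 1) ^ 4 * t ^ 4 = 1 := by rw [← mul_pow, h1, one_pow]
  have a6 : (x - 1) ^ 6 * t ^ 6 = 1 := by rw [← mul_pow, h1, one_pow]
  linear_combination 64 * t ^ 6 * hy - d * 30 * (x + 3) ^ 4 * t ^ 4 * a2 +
    d * 150 * (x + 3) ^ 2 * t ^ 2 * a4 + d * 6 * a6

/-- the function `w` -/
def Gen.w3 : B := G.x * (G.x ^ 2 - 9) * (G.i1 * G.i2)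

/-- the function `v` -/
def Gen.v : B := -(G.y * (G.i1 * G.i2))

theorem Gen.i12 : (G.x ^ 2 - 1) * (G.i1 * G.i2) = 1 := by
  have h1 := G.h1
  have h2 := G.h2
  linear_combination G.i2 * (G.x + 1) * h1 + h2

/-- `v² = 2 d (3 w)² + 6 d` -/
theorem Gen.v_sq : G.v ^ 2 = 2 * d * G.w3 ^ 2 + 6 * d := by
  have h := G.i12
  have hy := G.hy
  unfold Gen.v Gen.w3
  generalize G.i1 * G.i2 = j at *
  have h' : (G.x ^ 2 - 1) ^ 2 * j ^ 2 = 1 := by rw [← mul_pow, h, one_pow]
  linear_combination j ^ 2 * hy + 6 * d * h'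

/-- the cubic equation of `x` over the conic -/
theorem Gen.cub : G.x ^ 3 = G.w3 * G.x ^ 2 + 9 * G.x - G.w3 := by
  have h := G.i12
  unfold Gen.w3
  generalize G.i1 * G.i2 = j at *
  linear_combination (-(G.x * (G.x ^ 2 - 9))) * h

theorem Gen.i1_eq : 8 * G.i1 = G.x ^ 2 + G.x - 8 - G.w3 * (G.x + 1) := by
  have h1 := G.h1
  have hc := G.cub
  have : (G.x - 1) * (G.x ^ 2 + G.x - 8 - G.w3 * (G.x + 1)) = 8 := by linear_combination hc
  linear_combination (-G.i1) * this + (G.x ^ 2 + G.x - 8 - G.w3 * (G.x + 1)) * h1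

theorem Gen.i2_eq : 8 * G.i2 = -(G.x ^ 2 - G.x - 8 - G.w3 * (G.x - 1)) := by
  have h2 := G.h2
  have hc := G.cub
  have : (G.x + 1) * (-(G.x ^ 2 - G.x - 8 - G.w3 * (G.x - 1))) = 8 := by linear_combination -hc
  linear_combination (-G.i2) * this + (-(G.x ^ 2 - G.x - 8 - G.w3 * (G.x - 1))) * h2

theorem Gen.y_eq : G.y = -(G.v * (G.x ^ 2 - 1)) := by
  have h := G.i12
  unfold Gen.v
  linear_combination (-G.y) * h

/-- the images of `x` under `ρ` and `ρ²` -/
theorem Gen.e1 : G.x + -(G.x + 3) * G.i1 + (G.x - 3) * G.i2 = G.w3 := by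
  have h1 := G.h1
  have h2 := G.h2
  have h := G.i12
  unfold Gen.w3
  have e1 : G.i1 = (G.x + 1) * (G.i1 * G.i2) := by linear_combination (-G.i1) * h2
  have e2 : G.i2 = (G.x - 1) * (G.i1 * G.i2) := by linear_combination (-G.i2) * h1
  linear_combination (-(G.x + 3)) * e1 + (G.x - 3) * e2 - G.x * h

theorem Gen.e2 : G.x * (-(G.x + 3) * G.i1) + G.x * ((G.x - 3) * G.i2) +
    (-(G.x + 3) * G.i1) * ((G.x - 3) * G.i2) = -9 := by
  have h1 := G.h1
  have h2 := G.h2
  have h := G.i12
  have e1 : G.i1 = (G.x + 1) * (G.i1 * G.i2) := by linear_combination (-G.i1) * h2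
  have e2 : G.i2 = (G.x - 1) * (G.i1 * G.i2) := by linear_combination (-G.i2) * h1
  linear_combination (-(G.x * (G.x + 3))) * e1 + (G.x * (G.x - 3)) * e2 - 9 * h

theorem Gen.e3 : G.x * (-(G.x + 3) * G.i1) * ((G.x - 3) * G.i2) = -G.w3 := by
  unfold Gen.w3
  ring

end gen

/-! ### The ring -/

variable {F : Type} [Field F] [CharZero F]

/-- `D (2 x⁶ - 30 x⁴ + 150 x² + 6)` -/
noncomputable def sx (D : F) : F[X] := C D * (2 * X ^ 6 - 30 * X ^ 4 + 150 * X ^ 2 + 6)

variable {D : F}

theorem ne_of_sq (h2 : ¬ IsSquare (2 * D)) : D ≠ 0 := by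
  rintro rfl
  exact h2 ⟨0, by ring⟩

theorem hom_sx {S : Type} [CommRing S] (f : F[X] →+* S) :
    f (sx D) = f (C D) * (2 * f X ^ 6 - 30 * f X ^ 4 + 150 * f X ^ 2 + 6) := by
  unfold sx
  simp only [map_add, map_sub, map_mul, map_pow, map_ofNat]

theorem sx_C : sx D = C (2 * D) * X ^ 6 - C (30 * D) * X ^ 4 + C (150 * D) * X ^ 2 + C (6 * D) := by
  unfold sx
  simp only [C_mul, C_ofNat]
  ring

theorem natDegree_sx (hD : D ≠ 0) : (sx D).natDegree = 6 := by
  rw [sx_C]
  compute_degree!

theorem lead_sx (hD : D ≠ 0) : (sx D).leadingCoeff = 2 * D := by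
  rw [leadingCoeff, natDegree_sx hD, sx_C]
  simp only [coeff_add, coeff_sub, coeff_C_mul, coeff_X_pow, coeff_C]
  norm_num

theorem ns_sx (h2 : ¬ IsSquare (2 * D)) : NS (sx D) :=
  ns_of_lead (by rw [lead_sx (ne_of_sq h2)]; exact h2)

theorem sqf_sx (hD : D ≠ 0) : Squarefree (sx D) := by
  apply Polynomial.Separable.squarefree
  have hder : derivative (sx D) = C D * (C 12 * X ^ 5 - C 120 * X ^ 3 + C 300 * X) := by
    unfold sx
    rw [derivative_C_mul]
    congr 1
    have e0 : (2 * X ^ 6 - 30 * X ^ 4 + 150 * X ^ 2 + 6 : F[X]) =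
        C 2 * X ^ 6 - C 30 * X ^ 4 + C 150 * X ^ 2 + C 6 := by
      simp only [C_ofNat]
    rw [e0]
    simp only [derivative_add, derivative_sub, derivative_mul, derivative_X_pow, derivative_C, zero_mul,
      zero_add, add_zero]
    have e1 : ((6 : ℕ) : F) = 6 := by norm_num
    have e2 : ((4 : ℕ) : F) = 4 := by norm_num
    have e3 : ((2 : ℕ) : F) = 2 := by norm_num
    rw [e1, e2, e3, ← mul_assoc, ← mul_assoc, ← mul_assoc, ← C_mul, ← C_mul, ← C_mul]
    norm_num
  have key : (12 * (5 * (X ^ 2 - 5) ^ 2 + 3)) * sx D +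
      ((-10 * (X ^ 2 - 5) ^ 2 + 50 * (X ^ 2 - 5) - 256) * X) * derivative (sx D) =
      C D * C 9216 := by
    rw [hder]
    unfold sx
    simp only [C_ofNat]
    ring
  refine ⟨C (1 / (D * 9216)) * (12 * (5 * (X ^ 2 - 5) ^ 2 + 3)),
    C (1 / (D * 9216)) * ((-10 * (X ^ 2 - 5) ^ 2 + 50 * (X ^ 2 - 5) - 256) * X), ?_⟩
  rw [mul_assoc, mul_assoc (C (1 / (D * 9216))), ← mul_add, key, ← C_mul, ← C_mul]
  have : 1 / (D * 9216) * (D * 9216) = 1 := by
    field_simp
  rw [this, C_1]

theorem ded_sx (h2 : ¬ IsSquare (2 * D)) : IsDedekindDomain (CR (sx D)) :=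
  dedekind (by norm_num) (ns_sx h2) (sqf_sx (ne_of_sq h2))

section away

variable {B : Type} [CommRing B] [Algebra (CR (sx D)) B] [Algebra F B] [IsScalarTower F (CR (sx D)) B]
  [IsLocalization.Away (pp (X ^ 2 - 1) : CR (sx D)) B]

variable (D B) in
/-- The polynomials in `x` as elements of `B`. -/
noncomputable def jj : F[X] →+* B := (algebraMap (CR (sx D)) B).comp pp

theorem jj_C (a : F) : jj D B (C a) = algebraMap F B a :=
  (IsScalarTower.algebraMap_apply F (CR (sx D)) B a).symm

theorem jj_inv : (jj D B X ^ 2 - 1) * IsLocalization.Away.invSelf (pp (X ^ 2 - 1) : CR (sx D)) = 1 := by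
  have h := IsLocalization.Away.mul_invSelf (S := B) (pp (X ^ 2 - 1) : CR (sx D))
  have : algebraMap (CR (sx D)) B (pp (X ^ 2 - 1)) = jj D B X ^ 2 - 1 := by
    show jj D B (X ^ 2 - 1) = _
    rw [map_sub, map_pow, map_one]
  rwa [this] at h

variable (D B) in
/-- The generators. -/
noncomputable def gens : Gen B (algebraMap F B D) where
  x := jj D B X
  y := algebraMap (CR (sx D)) B (yy _)
  i1 := (jj D B X + 1) * IsLocalization.Away.invSelf (pp (X ^ 2 - 1) : CR (sx D))
  i2 := (jj D B X - 1) * IsLocalization.Away.invSelf (pp (X ^ 2 - 1) : CR (sx D))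
  h1 := by linear_combination jj_inv (D := D) (B := B)
  h2 := by linear_combination jj_inv (D := D) (B := B)
  hy := by
    have h : algebraMap (CR (sx D)) B (yy (sx D)) ^ 2 = jj D B (sx D) := by
      rw [← map_pow, yy_sq]; rfl
    rw [h, hom_sx, jj_C]

theorem gens_inv : (gens D B).i1 * (gens D B).i2 =
    IsLocalization.Away.invSelf (pp (X ^ 2 - 1) : CR (sx D)) := by
  show (jj D B X + 1) * IsLocalization.Away.invSelf (pp (X ^ 2 - 1) : CR (sx D)) *
    ((jj D B X - 1) * IsLocalization.Away.invSelf (pp (X ^ 2 - 1) : CR (sx D))) = _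
  linear_combination IsLocalization.Away.invSelf (pp (X ^ 2 - 1) : CR (sx D)) *
    jj_inv (D := D) (B := B)

theorem ext_hom {S : Type} [CommRing S] {f g : B →+* S}
    (hF : ∀ a, f (algebraMap F B a) = g (algebraMap F B a))
    (hx : f (gens D B).x = g (gens D B).x) (hy : f (gens D B).y = g (gens D B).y) : f = g := by
  apply IsLocalization.ringHom_ext (Submonoid.powers (pp (X ^ 2 - 1) : CR (sx D)))
  have hj : f.comp (jj D B) = g.comp (jj D B) := by
    apply Polynomial.ringHom_ext
    · intro a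
      rw [RingHom.comp_apply, RingHom.comp_apply, jj_C (B := B)]
      exact hF a
    · exact hx
  have hj' : ∀ p, f (jj D B p) = g (jj D B p) := fun p => congrArg (fun h => h p) hj
  refine RingHom.ext fun z => ?_
  obtain ⟨p, q, rfl⟩ := exists_el z
  have e : ∀ h : B →+* S, (h.comp (algebraMap (CR (sx D)) B)) (el p q) =
      h (jj D B p) + h (jj D B q) * h (gens D B).y := by
    intro h
    have : algebraMap (CR (sx D)) B (el p q) = jj D B p + jj D B q * (gens D B).y := by
      unfold el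
      rw [map_add, map_mul]; rfl
    rw [RingHom.comp_apply, this, map_add, map_mul]
  rw [e, e, hj', hj', hy]

/-- every element is an element of the affine ring times a power of `1 / (x² - 1)` -/
theorem exists_rep (z : B) : ∃ (n : ℕ) (p q : F[X]), z = ((gens D B).i1 * (gens D B).i2) ^ n *
    (jj D B p + jj D B q * (gens D B).y) := by
  obtain ⟨⟨a, s⟩, rfl⟩ :=
    IsLocalization.mk'_surjective (Submonoid.powers (pp (X ^ 2 - 1) : CR (sx D))) z
  obtain ⟨n, hn⟩ := s.2
  have hz : IsLocalization.mk' B a s =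
      ((gens D B).i1 * (gens D B).i2) ^ n * algebraMap (CR (sx D)) B a := by
    rw [IsLocalization.mk'_eq_iff_eq_mul]
    have hn' : algebraMap (CR (sx D)) B s = ((gens D B).x ^ 2 - 1) ^ n := by
      rw [← hn, map_pow]
      congr 1
      show jj D B (X ^ 2 - 1) = _
      rw [map_sub, map_pow, map_one]; rfl
    rw [hn', mul_right_comm, ← mul_pow, mul_comm ((gens D B).i1 * (gens D B).i2), (gens D B).i12,
      one_pow, one_mul]
  obtain ⟨p, q, rfl⟩ := exists_el a
  refine ⟨n, p, q, ?_⟩
  simp only at hz ⊢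
  rw [hz]
  congr 1
  unfold el
  rw [map_add, map_mul]; rfl

/-! ### The automorphism `ρ` -/

variable (D B) in
/-- `x ↦ (x + 3) / (1 - x)` on polynomials -/
noncomputable def baseR : F[X] →+* B :=
  eval₂RingHom (algebraMap F B) (-((gens D B).x + 3) * (gens D B).i1)

theorem baseR_C (a : F) : baseR D B (C a) = algebraMap F B a := by
  unfold baseR; simp

theorem baseR_X : baseR D B X = -((gens D B).x + 3) * (gens D B).i1 := by
  unfold baseR; simp

theorem eval_R : (X ^ 2 - C (sx D) : F[X][X]).eval₂ (baseR D B)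
    (8 * (gens D B).i1 ^ 3 * (gens D B).y) = 0 := by
  rw [eval₂_sub, eval₂_pow, eval₂_X, eval₂_C, hom_sx, baseR_X, baseR_C, (gens D B).rho_sq, sub_self]

variable (D B) in
/-- the map `ρ` on the affine curve -/
noncomputable def rhoA : CR (sx D) →+* B := AdjoinRoot.lift (baseR D B) _ (eval_R (D := D) (B := B))

theorem rhoA_pp (p : F[X]) : rhoA D B (pp p) = baseR D B p :=
  AdjoinRoot.lift_of (i := baseR D B) (h := eval_R (D := D) (B := B)) (x := p)

theorem rhoA_yy : rhoA D B (yy (sx D)) = 8 * (gens D B).i1 ^ 3 * (gens D B).y :=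
  AdjoinRoot.lift_root (i := baseR D B) (eval_R (D := D) (B := B))

theorem half (B : Type) [CommRing B] [Algebra F B] : algebraMap F B (1 / 2) * 2 = 1 := by
  have h := map_mul (algebraMap F B) (1 / 2) 2
  rw [map_ofNat] at h
  rw [← h]
  norm_num

theorem cancel2 {B : Type} [CommRing B] [Algebra F B] {a b : B} (h : 2 * a = 2 * b) : a = b := by
  have h2 := half (F := F) B
  linear_combination algebraMap F B (1 / 2) * h + (b - a) * h2

theorem rhoA_unit : IsUnit (rhoA D B (pp (X ^ 2 - 1))) := by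
  rw [rhoA_pp, map_sub, map_pow, map_one, baseR_X]
  have h1 := (gens D B).h1
  have h2 := (gens D B).h2
  have hh := half (F := F) B
  generalize algebraMap F B (1 / 2) = c at *
  generalize (gens D B).x = x at *
  generalize (gens D B).i1 = i1 at *
  generalize (gens D B).i2 = i2 at *
  have hc : c ^ 3 * 8 = 1 := by
    calc c ^ 3 * 8 = (c * 2) ^ 3 := by ring
      _ = 1 := by rw [hh, one_pow]
  refine IsUnit.of_mul_eq_one (c ^ 3 * (i2 * (x - 1) ^ 2)) ?_
  have a2 : (x - 1) ^ 2 * i1 ^ 2 = 1 := by rw [← mul_pow, h1, one_pow]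
  have e1 : (-(x + 3) * i1) ^ 2 - 1 = 8 * (x + 1) * i1 ^ 2 := by
    linear_combination a2
  rw [e1]
  linear_combination ((x + 1) * i2 * ((x - 1) ^ 2 * i1 ^ 2)) * hc + ((x + 1) * i2) * a2 + h2

variable (D B) in
/-- the automorphism `ρ` -/
noncomputable def rho : B →+* B :=
  IsLocalization.Away.lift (pp (X ^ 2 - 1) : CR (sx D)) (g := rhoA D B) rhoA_unit

theorem rho_alg (a : CR (sx D)) : rho D B (algebraMap _ B a) = rhoA D B a :=
  IsLocalization.Away.lift_eq _ _ _

theorem rho_F (a : F) : rho D B (algebraMap F B a) = algebraMap F B a := by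
  rw [← jj_C (D := D) (B := B)]
  show rho D B (algebraMap _ B (pp (C a))) = _
  rw [rho_alg, rhoA_pp, baseR_C, jj_C]

theorem rho_x : rho D B (gens D B).x = -((gens D B).x + 3) * (gens D B).i1 := by
  show rho D B (algebraMap _ B (pp X)) = _
  rw [rho_alg, rhoA_pp, baseR_X]

theorem rho_y : rho D B (gens D B).y = 8 * (gens D B).i1 ^ 3 * (gens D B).y := by
  show rho D B (algebraMap _ B (yy (sx D))) = _
  rw [rho_alg, rhoA_yy]

theorem rho_i1 : 2 * rho D B (gens D B).i1 = -(((gens D B).x - 1) * (gens D B).i2) := by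
  have h1 := (gens D B).h1
  have h2 := (gens D B).h2
  have h := congrArg (rho D B) h1
  rw [map_mul, map_sub, map_one, rho_x] at h
  generalize rho D B (gens D B).i1 = A at *
  generalize (gens D B).x = x at *
  generalize (gens D B).i1 = i1 at *
  generalize (gens D B).i2 = i2 at *
  have e : (-(x + 3) * i1 - 1) * (-((x - 1) * i2)) = 2 := by
    linear_combination ((x + 3) * i2) * h1 + 2 * h2
  calc 2 * A = ((-(x + 3) * i1 - 1) * (-((x - 1) * i2))) * A := by rw [e]
    _ = ((-(x + 3) * i1 - 1) * A) * (-((x - 1) * i2)) := by ring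
    _ = _ := by rw [h, one_mul]

theorem rho_i2 : 4 * rho D B (gens D B).i2 = -((gens D B).x - 1) := by
  have h1 := (gens D B).h1
  have h2 := (gens D B).h2
  have h := congrArg (rho D B) h2
  rw [map_mul, map_add, map_one, rho_x] at h
  generalize rho D B (gens D B).i2 = A at *
  generalize (gens D B).x = x at *
  generalize (gens D B).i1 = i1 at *
  have e : (-(x + 3) * i1 + 1) * (-(x - 1)) = 4 := by
    linear_combination (x + 3) * h1
  calc 4 * A = ((-(x + 3) * i1 + 1) * (-(x - 1))) * A := by rw [e]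
    _ = ((-(x + 3) * i1 + 1) * A) * (-(x - 1)) := by ring
    _ = _ := by rw [h, one_mul]

theorem rho2_x : rho D B (rho D B (gens D B).x) = ((gens D B).x - 3) * (gens D B).i2 := by
  apply cancel2 (F := F)
  rw [rho_x, map_mul, map_neg, map_add, map_ofNat, rho_x]
  have h1 := (gens D B).h1
  have hi := rho_i1 (D := D) (B := B)
  generalize rho D B (gens D B).i1 = A at *
  generalize (gens D B).x = x at *
  generalize (gens D B).i1 = i1 at *
  generalize (gens D B).i2 = i2 at *
  linear_combination (-(-(x + 3) * i1 + 3)) * hi + (-(x + 3) * i2) * h1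

theorem rho2_y : rho D B (rho D B (gens D B).y) = -8 * (gens D B).i2 ^ 3 * (gens D B).y := by
  rw [rho_y, map_mul, map_mul, map_pow, map_ofNat, rho_y]
  have h1 := (gens D B).h1
  have hi := rho_i1 (D := D) (B := B)
  generalize rho D B (gens D B).i1 = A at *
  generalize (gens D B).y = y at *
  generalize (gens D B).x = x at *
  generalize (gens D B).i1 = i1 at *
  generalize (gens D B).i2 = i2 at *
  have e3 : 8 * A ^ 3 = -((x - 1) ^ 3 * i2 ^ 3) := by
    calc 8 * A ^ 3 = (2 * A) ^ 3 := by ring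
      _ = _ := by rw [hi]; ring
  have a3 : (x - 1) ^ 3 * i1 ^ 3 = 1 := by rw [← mul_pow, h1, one_pow]
  linear_combination (8 * i1 ^ 3 * y) * e3 + (-8 * i2 ^ 3 * y) * a3

theorem rho3 (z : B) : rho D B (rho D B (rho D B z)) = z := by
  have h : ((rho D B).comp ((rho D B).comp (rho D B))) = RingHom.id B := by
    apply ext_hom (D := D)
    · intro a
      simp only [RingHom.comp_apply, RingHom.id_apply, rho_F]
    · show rho D B (rho D B (rho D B (gens D B).x)) = (gens D B).x
      apply cancel2 (F := F)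
      apply cancel2 (F := F)
      rw [rho2_x, map_mul, map_sub, map_ofNat, rho_x]
      have h1 := (gens D B).h1
      have hi := rho_i2 (D := D) (B := B)
      generalize rho D B (gens D B).i2 = A at *
      generalize (gens D B).x = x at *
      generalize (gens D B).i1 = i1 at *
      linear_combination (-(x + 3) * i1 - 3) * hi + (x + 3) * h1
    · show rho D B (rho D B (rho D B (gens D B).y)) = (gens D B).y
      rw [rho2_y, map_mul, map_mul, map_pow, map_neg, map_ofNat, rho_y]
      have h1 := (gens D B).h1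
      have hi := rho_i2 (D := D) (B := B)
      generalize rho D B (gens D B).i2 = A at *
      generalize (gens D B).y = y at *
      generalize (gens D B).x = x at *
      generalize (gens D B).i1 = i1 at *
      have e3 : 64 * A ^ 3 = -((x - 1) ^ 3) := by
        calc 64 * A ^ 3 = (4 * A) ^ 3 := by ring
          _ = _ := by rw [hi]; ring
      have a3 : (x - 1) ^ 3 * i1 ^ 3 = 1 := by rw [← mul_pow, h1, one_pow]
      linear_combination (-(i1 ^ 3 * y)) * e3 + y * a3
  exact congrArg (fun f => f z) h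

/-! ### The involution `σ` -/

theorem eval_S : (X ^ 2 - C (sx D) : F[X][X]).eval₂
    ((jj D B).comp (compRingHom (-X))) (gens D B).y = 0 := by
  rw [eval₂_sub, eval₂_pow, eval₂_X, eval₂_C, (gens D B).hy, hom_sx, RingHom.comp_apply,
    coe_compRingHom_apply, C_comp, jj_C, RingHom.comp_apply, coe_compRingHom_apply, X_comp, map_neg]
  show _ - (algebraMap F B D * (2 * (-(gens D B).x) ^ 6 - 30 * (-(gens D B).x) ^ 4 +
    150 * (-(gens D B).x) ^ 2 + 6)) = 0
  ring

variable (D B) in
/-- the map `σ` on the affine curve -/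
noncomputable def sigA : CR (sx D) →+* B :=
  AdjoinRoot.lift ((jj D B).comp (compRingHom (-X))) _ (eval_S (D := D) (B := B))

theorem sigA_pp (p : F[X]) : sigA D B (pp p) = jj D B (p.comp (-X)) :=
  AdjoinRoot.lift_of (i := (jj D B).comp (compRingHom (-X))) (h := eval_S (D := D) (B := B)) (x := p)

theorem sigA_yy : sigA D B (yy (sx D)) = (gens D B).y :=
  AdjoinRoot.lift_root (i := (jj D B).comp (compRingHom (-X))) (eval_S (D := D) (B := B))

theorem sigA_unit : IsUnit (sigA D B (pp (X ^ 2 - 1))) := by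
  rw [sigA_pp]
  have : (X ^ 2 - 1 : F[X]).comp (-X) = X ^ 2 - 1 := by simp
  rw [this]
  exact IsLocalization.Away.algebraMap_isUnit (pp (X ^ 2 - 1) : CR (sx D))

variable (D B) in
/-- the involution `σ` -/
noncomputable def sig : B →+* B :=
  IsLocalization.Away.lift (pp (X ^ 2 - 1) : CR (sx D)) (g := sigA D B) sigA_unit

theorem sig_alg (a : CR (sx D)) : sig D B (algebraMap _ B a) = sigA D B a :=
  IsLocalization.Away.lift_eq _ _ _

theorem sig_F (a : F) : sig D B (algebraMap F B a) = algebraMap F B a := by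
  rw [← jj_C (D := D) (B := B)]
  show sig D B (algebraMap _ B (pp (C a))) = _
  rw [sig_alg, sigA_pp, C_comp]

theorem sig_x : sig D B (gens D B).x = -(gens D B).x := by
  show sig D B (algebraMap _ B (pp X)) = _
  rw [sig_alg, sigA_pp, X_comp, map_neg]; rfl

theorem sig_y : sig D B (gens D B).y = (gens D B).y := by
  show sig D B (algebraMap _ B (yy (sx D))) = _
  rw [sig_alg, sigA_yy]

theorem sig_sig (z : B) : sig D B (sig D B z) = z := by
  have h : (sig D B).comp (sig D B) = RingHom.id B := by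
    apply ext_hom (D := D)
    · intro a; simp only [RingHom.comp_apply, RingHom.id_apply, sig_F]
    · simp only [RingHom.comp_apply, RingHom.id_apply, sig_x, map_neg, neg_neg]
    · simp only [RingHom.comp_apply, RingHom.id_apply, sig_y]
  exact congrArg (fun f => f z) h

theorem sig_i1 : sig D B (gens D B).i1 = -(gens D B).i2 := by
  have h2 := (gens D B).h2
  have h := congrArg (sig D B) (gens D B).h1
  rw [map_mul, map_sub, map_one, sig_x] at h
  linear_combination (-sig D B (gens D B).i1) * h2 - (gens D B).i2 * h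

theorem sig_rho (z : B) : sig D B (rho D B z) = rho D B (rho D B (sig D B z)) := by
  have h : (sig D B).comp (rho D B) = (rho D B).comp ((rho D B).comp (sig D B)) := by
    apply ext_hom (D := D)
    · intro a; simp only [RingHom.comp_apply, sig_F, rho_F]
    · simp only [RingHom.comp_apply]
      rw [rho_x, map_mul, map_neg, map_add, map_ofNat, sig_x, sig_i1, map_neg, map_neg, rho2_x]
      ring
    · simp only [RingHom.comp_apply]
      rw [rho_y, map_mul, map_mul, map_pow, map_ofNat, sig_y, sig_i1, rho2_y]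
      ring
  exact congrArg (fun f => f z) h

end away

end Pool.Agent.H81.GD
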