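import Pool.Agent.H81.G5.Grp

set_option autoImplicit false

/-!
# The rank of an abelian group with an action of the symmetric group of degree three, as a cardinal
-/

namespace Pool.Agent.H81.GD

open Cardinal
open Pool.Agent.H81.G5 (rank_prod rank_eq_of_map)

/-- The rank of a group with an action of the symmetric group of degree three in terms of the rank of the
quotient by an involution, if the norm of the rotations is torsion. -/
theorem rank_two {P G : Type} [AddCommGroup P] [AddCommGroup G] [Module.Finite ℤ P] (ε : P →+ G)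
    (r s : G →+ G) (hs : ∀ p, s (ε p) = ε p) (hr : ∀ g, r (r (r g)) = g)
    (hsr : ∀ g, s (r g) = r (r (s g))) (n : ℤ) (hn : n ≠ 0)
    (hN : ∀ g, n • (g + r g + r (r g)) = 0) (hE : ∀ g, ∃ p, ε p = g + s g) (m : ℤ) (hm : m ≠ 0)
    (hK : ∀ p, ε p = 0 → m • p = 0) :
    Module.rank ℤ G = ((2 * Module.finrank ℤ P : ℕ) : Cardinal) := by
  let g2 : P × P →ₗ[ℤ] G := (ε.toIntLinearMap).coprod ((r.comp ε).toIntLinearMap)
  have hg2 : ∀ p q, g2 (p, q) = ε p + r (ε q) := fun p q => rfl
  have hsrr : ∀ g, s (r (r g)) = r (s g) := fun g => by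
    rw [hsr, hsr, hr]
  have hker : ∀ x, g2 x = 0 → (m * (3 * n)) • x = 0 := by
    rintro ⟨p, q⟩ h
    rw [hg2] at h
    have h1 : ε p + r (r (ε q)) = 0 := by
      have := congrArg s h
      rwa [map_add, hs, hsr, hs, map_zero] at this
    have h2 : r (r (ε p)) + ε q = 0 := by
      have := congrArg (fun x => r (r x)) h
      simp only [map_add, map_zero, hr] at this
      exact this
    have h3 : r (ε p) + ε q = 0 := by
      have := congrArg s h2
      rwa [map_add, hsrr, hs, hs, map_zero] at this
    have hp := hN (ε p)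
    have hq := hN (ε q)
    have e1 : n • ((2 : ℤ) • ε p - ε q) = 0 := by
      have : n • ((2 : ℤ) • ε p - ε q) = n • (ε p + r (ε q)) + n • (ε p + r (r (ε q))) -
          n • (ε q + r (ε q) + r (r (ε q))) := by
        simp only [smul_sub, smul_add, two_smul]; abel
      rw [this, h, h1, hq]; simp
    have e2 : n • ((2 : ℤ) • ε q - ε p) = 0 := by
      have : n • ((2 : ℤ) • ε q - ε p) = n • (r (ε p) + ε q) + n • (r (r (ε p)) + ε q) -
          n • (ε p + r (ε p) + r (r (ε p))) := by
        simp only [smul_sub, smul_add, two_smul]; abel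
      rw [this, h3, h2, hp]; simp
    have e3 : ε ((3 * n) • p) = 0 := by
      rw [map_zsmul]
      have : (3 * n) • ε p = (2 : ℤ) • (n • ((2 : ℤ) • ε p - ε q)) + n • ((2 : ℤ) • ε q - ε p) := by
        module
      rw [this, e1, e2]; simp
    have e4 : ε ((3 * n) • q) = 0 := by
      rw [map_zsmul]
      have : (3 * n) • ε q = (2 : ℤ) • (n • ((2 : ℤ) • ε q - ε p)) + n • ((2 : ℤ) • ε p - ε q) := by
        module
      rw [this, e1, e2]; simp
    rw [mul_smul, Prod.smul_mk, Prod.smul_mk, hK _ e3, hK _ e4]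
    rfl
  have him : ∀ y, ∃ x, g2 x = (3 * n) • y := by
    intro g
    obtain ⟨p0, h0⟩ := hE g
    obtain ⟨p1, h1⟩ := hE (r g)
    obtain ⟨p2, h2⟩ := hE (r (r g))
    rw [hsr] at h1
    rw [hsrr] at h2
    refine ⟨(n • (p0 - p1), n • (p2 - p1)), ?_⟩
    rw [hg2, map_zsmul, map_zsmul, map_zsmul, map_sub, map_sub, map_sub]
    have e1 : r (r (ε p1)) = g + r (s g) := by
      rw [h1]
      simp only [map_add, hr]
    have e2 : r (ε p2) = g + r (r (s g)) := by
      rw [h2]
      simp only [map_add, hr]
    have e3 := hN (ε p1)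
    have e4 := hN (s g)
    have : n • (ε p0 - ε p1) + n • (r (ε p2) - r (ε p1)) =
        n • (ε p0 + r (ε p2) + r (r (ε p1))) - n • (ε p1 + r (ε p1) + r (r (ε p1))) := by
      simp only [smul_sub, smul_add]; abel
    rw [this, e3, h0, e1, e2, sub_zero]
    have : n • (g + s g + (g + r (r (s g))) + (g + r (s g))) =
        (3 * n) • g + n • (s g + r (s g) + r (r (s g))) := by
      module
    rw [this, e4, add_zero]
  have h := rank_eq_of_map g2 (m * (3 * n)) (mul_ne_zero hm (mul_ne_zero (by norm_num) hn)) hker (3 * n)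
    (mul_ne_zero (by norm_num) hn) him
  rw [← h]
  have h5 : Module.rank ℤ (P × P) = ((2 * Module.finrank ℤ P : ℕ) : Cardinal) := by
    rw [rank_prod, ← Module.finrank_eq_rank ℤ P]
    push_cast
    ring
  exact h5

end Pool.Agent.H81.GD
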