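import Mathlib

set_option autoImplicit false

/-!
# The quadratic subextension of a cyclic extension of degree `2 ^ n`
-/

namespace Pool.Agent.H81.GD

open NumberField

theorem exists_anti {M K : Type} [Field M] [Field K] [Algebra M K] [FiniteDimensional M K] [IsGalois M K]
    {g : K ≃ₐ[M] K} {N : ℕ} (hN : Even N) (hN0 : N ≠ 0) (hg : orderOf g = N) :
    ∃ e : K, e ≠ 0 ∧ g e = -e := by
  classical
  have hli := linearIndependent_toLinearMap M K K
  have hinj : Function.Injective (fun i : Fin N => ((g ^ (i : ℕ) : K ≃ₐ[M] K) : K →ₐ[M] K)) := by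
    intro i j hij
    have h1 : (g ^ (i : ℕ) : K ≃ₐ[M] K) = g ^ (j : ℕ) := by
      ext x
      exact congrArg (fun f : K →ₐ[M] K => f x) hij
    have h2 := pow_injOn_Iio_orderOf (x := g) (by rw [hg]; exact i.2) (by rw [hg]; exact j.2) h1
    exact Fin.ext h2
  have h3 := hli.comp _ hinj
  rw [Fintype.linearIndependent_iff] at h3
  have h4 : ∑ i : Fin N, ((-1 : K) ^ (i : ℕ)) •
      (((g ^ (i : ℕ) : K ≃ₐ[M] K) : K →ₐ[M] K).toLinearMap) ≠ 0 := by
    intro h
    have := h3 (fun i => (-1 : K) ^ (i : ℕ)) h ⟨0, Nat.pos_of_ne_zero hN0⟩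
    simp at this
  obtain ⟨x, hx⟩ : ∃ x : K, ∑ i ∈ Finset.range N, (-1 : K) ^ i * (g ^ i : K ≃ₐ[M] K) x ≠ 0 := by
    by_contra hcon
    push Not at hcon
    apply h4
    apply LinearMap.ext
    intro x
    rw [LinearMap.sum_apply, LinearMap.zero_apply, ← hcon x,
      Finset.sum_range (fun i => (-1 : K) ^ i * (g ^ i : K ≃ₐ[M] K) x)]
    rfl
  refine ⟨_, hx, ?_⟩
  have hgN : g ^ N = 1 := by rw [← hg, pow_orderOf_eq_one]
  set a : ℕ → K := fun i => (-1 : K) ^ i * (g ^ i : K ≃ₐ[M] K) x with ha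
  have h5 : ∀ i, g (a i) = -a (i + 1) := by
    intro i
    simp only [ha]
    rw [map_mul, map_pow, map_neg, map_one, pow_succ (-1 : K), pow_succ' g, AlgEquiv.mul_apply]
    ring
  have h6 : a N = a 0 := by
    simp only [ha]
    rw [hgN, hN.neg_one_pow, pow_zero, pow_zero]
  have h7 : ∑ i ∈ Finset.range N, a (i + 1) = ∑ i ∈ Finset.range N, a i := by
    have e1 := Finset.sum_range_succ a N
    have e2 := Finset.sum_range_succ' a N
    rw [e2, h6] at e1
    exact add_right_cancel e1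
  rw [map_sum, Finset.sum_congr rfl fun i _ => h5 i, Finset.sum_neg_distrib, h7]

theorem exists_delta {M K : Type} [Field M] [NumberField M] [Field K] [NumberField K] [Algebra M K]
    [IsGalois M K] (hc : IsCyclic (K ≃ₐ[M] K)) {n : ℕ} (hn : n ≠ 0) (hd : Module.finrank M K = 2 ^ n) :
    ∃ δ : 𝓞 M, δ ≠ 0 ∧ ¬ IsSquare (δ : M) ∧ IsSquare (algebraMap M K δ) := by
  obtain ⟨g, hg⟩ := hc.exists_generator
  have hcard : Nat.card (K ≃ₐ[M] K) = 2 ^ n := by rw [IsGalois.card_aut_eq_finrank, hd]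
  have hord : orderOf g = 2 ^ n := by
    rw [orderOf_eq_card_of_forall_mem_zpowers hg, hcard]
  obtain ⟨e, he0, he⟩ := exists_anti (g := g) (Even.pow_of_ne_zero even_two hn)
    (pow_ne_zero n two_ne_zero) hord
  have hfix : ∀ σ : K ≃ₐ[M] K, σ (e ^ 2) = e ^ 2 := by
    intro σ
    have h1 : ∀ σ ∈ Subgroup.zpowers g, σ • (e ^ 2) = e ^ 2 := by
      intro σ hσ
      have h2 : Subgroup.zpowers g ≤ MulAction.stabilizer (K ≃ₐ[M] K) (e ^ 2) := by
        rw [Subgroup.zpowers_le, MulAction.mem_stabilizer_iff]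
        show g (e ^ 2) = e ^ 2
        rw [map_pow, he, neg_sq]
      exact h2 hσ
    exact h1 σ (hg σ)
  obtain ⟨c, hc'⟩ := IntermediateField.mem_bot.1 ((IsGalois.mem_bot_iff_fixed (e ^ 2)).2 hfix)
  obtain ⟨a, b, hb, hab⟩ := IsFractionRing.div_surjective (A := 𝓞 M) c
  have hb0 : (b : M) ≠ 0 := by
    have := nonZeroDivisors.ne_zero hb
    exact fun h => this (RingOfIntegers.ext h)
  have hcab : ((a * b : 𝓞 M) : M) = c * (b : M) ^ 2 := by
    have e1 : ((a * b : 𝓞 M) : M) = (a : M) * (b : M) := map_mul (algebraMap (𝓞 M) M) a b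
    have e2 : (a : M) / (b : M) = c := hab
    rw [e1, ← e2]
    field_simp
  have hsq : algebraMap M K ((a * b : 𝓞 M) : M) = (e * algebraMap M K b) * (e * algebraMap M K b) := by
    rw [hcab, map_mul, map_pow, hc']
    ring
  have hbK : algebraMap M K b ≠ 0 := (map_ne_zero _).2 hb0
  refine ⟨a * b, ?_, ?_, ⟨_, hsq⟩⟩
  · intro h
    rw [h] at hsq
    have h0 : algebraMap M K ((0 : 𝓞 M) : M) = 0 := by
      show algebraMap M K (algebraMap (𝓞 M) M 0) = 0
      rw [map_zero, map_zero]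
    rw [h0] at hsq
    exact mul_ne_zero (mul_ne_zero he0 hbK) (mul_ne_zero he0 hbK) hsq.symm
  · rintro ⟨s, hs⟩
    rw [hs, map_mul] at hsq
    have h1 : (e * algebraMap M K b) ^ 2 = (algebraMap M K s) ^ 2 := by
      rw [pow_two, pow_two, hsq]
    have h2 : g (e * algebraMap M K b) = e * algebraMap M K b := by
      rcases sq_eq_sq_iff_eq_or_eq_neg.1 h1 with h | h
      · rw [h, AlgEquiv.commutes]
      · rw [h, map_neg, AlgEquiv.commutes]
    rw [map_mul, he, AlgEquiv.commutes] at h2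
    have h3 : (2 : K) * (e * algebraMap M K b) = 0 := by linear_combination (-1 : K) * h2
    exact mul_ne_zero two_ne_zero (mul_ne_zero he0 hbK) h3

end Pool.Agent.H81.GD
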