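import Pool.Agent.H81.GD.Quot
import Pool.Agent.H81.GD.Grp
import Pool.Agent.H81.G5.Ext

set_option autoImplicit false
set_option linter.unusedSectionVars false

/-!
# The rank of the class group of the affine curve `y² = D (2 x⁶ - 30 x⁴ + 150 x² + 6)`
-/

namespace Pool.Agent.H81.GD

open Polynomial Pool.Agent.TH943.HJ Pool.Agent.K7.H65
open Pool.Agent.K7.H65.G4 (map_ne_bot exists_map_eq descendP dvd_two prime_lin)
open Pool.Agent.H81.G5 (Trace ext ext_mk0 ext_ext ext_id map_mem rank_eq_of_map)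
open scoped nonZeroDivisors

variable {F : Type} [Field F] [CharZero F] {D : F} [NeZero D]

/-! ### The elliptic curve -/

theorem natDegree_ce : (ce D).natDegree = 3 := by
  unfold ce; compute_degree!

theorem ded_ce : IsDedekindDomain (CR (ce D)) := by
  refine Pool.Agent.TH943.HJ.dedekind (by norm_num) (by rw [natDegree_ce]; decide)
    (Polynomial.Separable.squarefree ?_)
  have hder : derivative (ce D) = C 3 * X ^ 2 := by
    unfold ce
    simp only [derivative_add, derivative_X_pow, derivative_C, add_zero]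
    norm_num
  have hD : D ≠ 0 := NeZero.ne D
  refine ⟨C (1 / (16 * D ^ 3)), C (-(1 / (48 * D ^ 3))) * X, ?_⟩
  rw [hder]
  unfold ce
  have e : ∀ u w t : F, (C u : F[X]) * (X ^ 3 + C t) + C w * X * (C 3 * X ^ 2) =
      C (u + w * 3) * X ^ 3 + C (u * t) := by
    intro u w t
    simp only [C_add, C_mul]
    ring
  have e1 : 1 / (16 * D ^ 3) + -(1 / (48 * D ^ 3)) * 3 = 0 := by
    field_simp
    norm_num
  have e2 : 1 / (16 * D ^ 3) * (16 * D ^ 3) = 1 := by field_simp
  rw [e, e1, e2, C_0, zero_mul, zero_add, C_1]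

variable {B : Type} [CommRing B] [Algebra (CR (sx D)) B] [Algebra F B] [IsScalarTower F (CR (sx D)) B]
  [IsLocalization.Away (pp (X ^ 2 - 1) : CR (sx D)) B]

theorem sx_ne : (pp (X ^ 2 - 1) : CR (sx D)) ≠ 0 := by
  have hne : (X ^ 2 - 1 : F[X]) ≠ 0 := (monic_X_pow_sub_C 1 two_ne_zero).ne_zero
  intro h
  exact hne (pp_inj (by rw [h, map_zero]))

theorem phe_comp (p : F[X]) : phe D B (pp p) = jj D B (p.comp (C (D / 2) * (X ^ 2 - C 5))) := by
  have : (phe D B).comp pp = (jj D B).comp (compRingHom (C (D / 2) * (X ^ 2 - C 5))) := by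
    apply Polynomial.ringHom_ext
    · intro a
      simp only [RingHom.comp_apply]
      rw [phe_pp, coe_compRingHom_apply, C_comp, jj_C]
      simp
    · simp only [RingHom.comp_apply]
      rw [phe_pp, coe_compRingHom_apply, X_comp, map_mul, map_sub, jj_C, jj_C, map_pow,
        coe_eval₂RingHom, eval₂_X, map_ofNat (algebraMap F B) 5]
      rfl
  exact congrArg (fun f => f p) this

theorem jj_inj [IsDomain (CR (sx D))] : Function.Injective (jj D B) := by
  have hM : Submonoid.powers (pp (X ^ 2 - 1) : CR (sx D)) ≤ nonZeroDivisors _ :=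
    powers_le_nonZeroDivisors_of_noZeroDivisors sx_ne
  have h1 : Function.Injective (algebraMap (CR (sx D)) B) := IsLocalization.injective B hM
  exact h1.comp pp_inj

theorem phe_inj [IsDomain (CR (sx D))] : Function.Injective (phe D B) := by
  rw [injective_iff_map_eq_zero]
  intro z hz
  obtain ⟨p, q, rfl⟩ := exists_el z
  have h1 : phe D B (el p q * cj _ (el p q)) = 0 := by rw [map_mul, hz, zero_mul]
  rw [el_mul_cj, phe_comp] at h1
  have h2 : (p ^ 2 - ce D * q ^ 2).comp (C (D / 2) * (X ^ 2 - C 5)) = 0 :=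
    jj_inj (D := D) (B := B) (by rw [h1, map_zero])
  have hdeg : (C (D / 2) * (X ^ 2 - C 5) : F[X]).natDegree = 2 := by
    compute_degree!
    exact NeZero.ne D
  have h3 : p ^ 2 - ce D * q ^ 2 = 0 := by
    rcases Polynomial.comp_eq_zero_iff.1 h2 with h | ⟨-, h⟩
    · exact h
    · exfalso
      rw [h, natDegree_C] at hdeg
      omega
  obtain ⟨rfl, rfl⟩ := norm_ne (by rw [natDegree_ce]; decide) h3
  unfold el
  rw [map_zero, zero_mul, add_zero]

/-- the trace of the quotient by `σ` -/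
noncomputable def trc : Trace (phe D B) (pp (X - C (-(2 * D))) : CR (ce D)) where
  τ := AddMonoidHom.id B + (sig D B : B →+ B)
  mul r b := by
    show phe D B r * b + sig D B (phe D B r * b) = phe D B r * (b + sig D B b)
    rw [map_mul, sig_fix _ ⟨r, rfl⟩]
    ring
  two r := by
    show phe D B r + sig D B (phe D B r) = 2 * phe D B r
    rw [sig_fix _ ⟨r, rfl⟩]
    ring
  mem b := by
    show ∃ (n : ℕ) (r : CR (ce D)), phe D B r = phe D B (pp (X - C (-(2 * D)))) ^ n * (b + sig D B b)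
    obtain ⟨n, p, q, rfl⟩ := exists_rep (D := D) b
    obtain ⟨a, ha, b, hb, h1⟩ := exists_ab (D := D) (B := B) p
    obtain ⟨c, hc, d, hd, h2⟩ := exists_ab (D := D) (B := B) q
    have hy := phe_y (D := D) (B := B)
    have hT : phe D B (pp (X - C (-(2 * D)))) = algebraMap F B (D / 2) * ((gens D B).x ^ 2 - 1) := by
      have h52 : algebraMap F B (D / 2) * 4 = algebraMap F B (2 * D) := by
        have := map_mul (algebraMap F B) (D / 2) 4
        rw [map_ofNat] at this
        rw [← this]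
        congr 1
        ring
      rw [phe_pp, coe_eval₂RingHom, eval₂_sub, eval₂_X, eval₂_C, map_neg]
      linear_combination -h52
    have hi : (((gens D B).x ^ 2 - 1) ^ n) * (((gens D B).i1 * (gens D B).i2) ^ n) = 1 := by
      rw [← mul_pow, (gens D B).i12, one_pow]
    have hm : algebraMap F B (D / 2) ^ n * (2 * (a + c * (gens D B).y)) ∈ (phe D B).range := by
      refine mul_mem (pow_mem (phe_F _) n) (mul_mem (phe_num 2) (add_mem ha (mul_mem hc hy)))
    obtain ⟨r, hr⟩ := hm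
    refine ⟨n, r, ?_⟩
    rw [hr, hT, mul_pow, map_mul, map_pow, sig_i12, map_add, map_mul, h1, h2, sig_y, map_add, map_mul,
      map_add, map_mul, sig_x, sig_fix a ha, sig_fix b hb, sig_fix c hc, sig_fix d hd]
    linear_combination (-(algebraMap F B (D / 2) ^ n * (2 * (a + c * (gens D B).y)))) * hi

theorem not_sq8 (h2 : ¬ IsSquare (2 * D)) : ¬ IsSquare (8 * D ^ 3) := by
  rintro ⟨r, hr⟩
  have hD : D ≠ 0 := NeZero.ne D
  apply h2
  refine ⟨r / (2 * D), ?_⟩
  field_simp
  linear_combination hr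

theorem prime_T (h2 : ¬ IsSquare (2 * D)) : Prime (pp (X - C (-(2 * D))) : CR (ce D)) := by
  refine prime_lin (-(2 * D)) ?_
  have : (ce D).eval (-(2 * D)) = 8 * D ^ 3 := by
    unfold ce
    simp only [eval_add, eval_pow, eval_X, eval_C]
    ring
  rw [this]
  exact not_sq8 h2

theorem not_sq18 (h2 : ¬ IsSquare (2 * D)) : ¬ IsSquare (18 * D) := by
  rintro ⟨r, hr⟩
  apply h2
  refine ⟨r / 3, ?_⟩
  field_simp
  linear_combination hr

/-- the maps -/
theorem exists_maps [IsDedekindDomain B] (h2 : ¬ IsSquare (2 * D)) (p₁ : F[X][X])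
    (hp₁ : p₁ = X ^ 2 - C (ce D)) [IsDomain (AdjoinRoot p₁)] :
    ∃ (ε : Additive (ClassGroup (AdjoinRoot p₁)) →+ Additive (ClassGroup B))
      (r s : Additive (ClassGroup B) →+ Additive (ClassGroup B)),
      (∀ p, s (ε p) = ε p) ∧ (∀ g, r (r (r g)) = g) ∧ (∀ g, s (r g) = r (r (s g))) ∧
      (∀ g, (4 : ℤ) • (g + r g + r (r g)) = 0) ∧ (∀ g, ∃ p, ε p = g + s g) ∧
      (∀ p, ε p = 0 → (2 : ℤ) • p = 0) := by
  subst hp₁
  have hdR : IsDedekindDomain (CR (ce D)) := ded_ce
  have hdA : IsDedekindDomain (CR (sx D)) := ded_sx h2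
  have hdC := ded_qc (c1 := 18 * D) (c2 := 6 * D) (not_sq18 h2)
  let σ : B ≃+* B := RingEquiv.ofRingHom (sig D B) (sig D B) (RingHom.ext sig_sig) (RingHom.ext sig_sig)
  let ρ : B ≃+* B := RingEquiv.ofRingHom (rho D B) ((rho D B).comp (rho D B))
    (RingHom.ext rho3) (RingHom.ext rho3)
  have hφ : Function.Injective (phe D B) := phe_inj
  have hσ : Function.Injective (σ : B →+* B) := σ.injective
  have hρ : Function.Injective (ρ : B →+* B) := ρ.injective
  have hρρ : Function.Injective ((ρ : B →+* B).comp (ρ : B →+* B)) := hρ.comp hρ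
  let ε' : ClassGroup (CR (ce D)) →* ClassGroup B := ext (phe D B) hφ
  let s' : ClassGroup B →* ClassGroup B := ext (σ : B →+* B) hσ
  let r' : ClassGroup B →* ClassGroup B := ext (ρ : B →+* B) hρ
  have a1 : ∀ p, s' (ε' p) = ε' p := fun p =>
    ext_ext (phe D B) hφ (σ : B →+* B) hσ (phe D B) hφ (fun z => sig_fix _ ⟨z, rfl⟩) p
  have a2 : ∀ g, r' (r' (r' g)) = g := by
    intro g
    have e1 : r' (r' g) = ext ((ρ : B →+* B).comp (ρ : B →+* B)) hρρ g :=
      ext_ext _ _ _ _ _ _ (fun z => rfl) g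
    rw [e1]
    have e2 : r' (ext ((ρ : B →+* B).comp (ρ : B →+* B)) hρρ g) =
        ext ((ρ : B →+* B).comp ((ρ : B →+* B).comp (ρ : B →+* B))) (hρ.comp hρρ) g :=
      ext_ext _ _ _ _ _ _ (fun z => rfl) g
    rw [e2]
    exact ext_id _ _ (fun z => rho3 z) g
  have a3 : ∀ g, s' (r' g) = r' (r' (s' g)) := by
    intro g
    have e1 : s' (r' g) = ext ((σ : B →+* B).comp (ρ : B →+* B)) (hσ.comp hρ) g :=
      ext_ext _ _ _ _ _ _ (fun z => rfl) g
    have e2 : r' (s' g) = ext ((ρ : B →+* B).comp (σ : B →+* B)) (hρ.comp hσ) g :=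
      ext_ext _ _ _ _ _ _ (fun z => rfl) g
    rw [e1, e2]
    exact (ext_ext _ _ _ _ _ _ (fun z => (sig_rho z).symm) g).symm
  have a4 : ∀ g, (g * r' g * r' (r' g)) ^ 4 = 1 := by
    intro g
    obtain ⟨I, rfl⟩ := ClassGroup.mk0_surjective g
    have hI : (I : Ideal B) ≠ ⊥ := nonZeroDivisors.coe_ne_zero I
    obtain ⟨J, hJ⟩ := exists_map_eq (ι := Fin 3) (phc D B) (![RingEquiv.refl B, ρ, ρ.trans ρ])
      (fun z => by
      obtain ⟨r, hr⟩ := norm_rho (D := D) z
      refine ⟨r, 1, isUnit_one, ?_⟩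
      rw [hr, Fin.prod_univ_three, one_mul]
      rfl) hI
    rw [Fin.prod_univ_three] at hJ
    obtain ⟨a, ha⟩ := exp_C (not_sq18 h2) J
    have e1 : (I : Ideal B).map ((![RingEquiv.refl B, ρ, ρ.trans ρ] : Fin 3 → B ≃+* B) 0 : B →+* B) =
        I := by
      show (I : Ideal B).map ((RingEquiv.refl B : B ≃+* B) : B →+* B) = I
      exact Ideal.map_id _
    have e2 : (I : Ideal B).map ((![RingEquiv.refl B, ρ, ρ.trans ρ] : Fin 3 → B ≃+* B) 1 : B →+* B) =
        (I : Ideal B).map (ρ : B →+* B) := rfl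
    have e3 : (I : Ideal B).map ((![RingEquiv.refl B, ρ, ρ.trans ρ] : Fin 3 → B ≃+* B) 2 : B →+* B) =
        ((I : Ideal B).map (ρ : B →+* B)).map (ρ : B →+* B) := by
      rw [Ideal.map_map]; rfl
    rw [e1, e2, e3] at hJ
    have h1 : r' (ClassGroup.mk0 I) = ClassGroup.mk0 ⟨_, map_mem (ρ : B →+* B) hρ I⟩ := ext_mk0 _ _ _
    rw [h1]
    have h3 : r' (ClassGroup.mk0 ⟨_, map_mem (ρ : B →+* B) hρ I⟩) = ClassGroup.mk0 ⟨_,
      map_mem (ρ : B →+* B) hρ ⟨_, map_mem (ρ : B →+* B) hρ I⟩⟩ := ext_mk0 _ _ _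
    rw [h3, ← map_mul, ← map_mul, ← map_pow]
    refine (ClassGroup.mk0_eq_one_iff _).2 ⟨phc D B a, ?_⟩
    rw [Ideal.submodule_span_eq]
    have h4 := congrArg (Ideal.map (phc D B)) ha
    rw [Ideal.map_pow, hJ, Ideal.map_span, Set.image_singleton] at h4
    rw [← h4]
    simp only [Submonoid.coe_mul]
  have a5 : ∀ g, ∃ p, ε' p = g * s' g := by
    intro g
    obtain ⟨I, rfl⟩ := ClassGroup.mk0_surjective g
    have hI : (I : Ideal B) ≠ ⊥ := nonZeroDivisors.coe_ne_zero I
    obtain ⟨J, hJ⟩ := exists_map_eq (ι := Fin 2) (phe D B) (![RingEquiv.refl B, σ]) (fun z => by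
      obtain ⟨r, w, hw, hr⟩ := norm_sig (D := D) z
      refine ⟨r, w, hw, ?_⟩
      rw [hr, Fin.prod_univ_two]
      rfl) hI
    rw [Fin.prod_univ_two] at hJ
    have e1 : (I : Ideal B).map ((![RingEquiv.refl B, σ] : Fin 2 → B ≃+* B) 0 : B →+* B) = I := by
      show (I : Ideal B).map ((RingEquiv.refl B : B ≃+* B) : B →+* B) = I
      exact Ideal.map_id _
    have e2 : (I : Ideal B).map ((![RingEquiv.refl B, σ] : Fin 2 → B ≃+* B) 1 : B →+* B) =
        (I : Ideal B).map (σ : B →+* B) := rfl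
    rw [e1, e2] at hJ
    have hJ0 : J ≠ ⊥ := by
      rintro rfl
      rw [Ideal.map_bot] at hJ
      exact mul_ne_zero hI (map_ne_bot σ hI) hJ.symm
    refine ⟨ClassGroup.mk0 ⟨J, mem_nonZeroDivisors_of_ne_zero hJ0⟩, ?_⟩
    have h1 : s' (ClassGroup.mk0 I) = ClassGroup.mk0 ⟨_, map_mem (σ : B →+* B) hσ I⟩ := ext_mk0 _ _ _
    have h3 : ε' (ClassGroup.mk0 ⟨J, mem_nonZeroDivisors_of_ne_zero hJ0⟩) = ClassGroup.mk0 ⟨_,
      map_mem (phe D B) hφ ⟨J, mem_nonZeroDivisors_of_ne_zero hJ0⟩⟩ := ext_mk0 _ _ _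
    rw [h1, h3, ← map_mul]
    congr 1
    exact Subtype.ext hJ
  have a6 : ∀ p, ε' p = 1 → p ^ 2 = 1 := by
    intro p hp
    obtain ⟨J, rfl⟩ := ClassGroup.mk0_surjective p
    have h3 : ε' (ClassGroup.mk0 J) = ClassGroup.mk0 ⟨_, map_mem (phe D B) hφ J⟩ := ext_mk0 _ _ _
    rw [h3, ClassGroup.mk0_eq_one_iff] at hp
    obtain ⟨b, hb⟩ := hp.principal
    have h12 : (pp (C (1 / 2)) : CR (ce D)) * 2 = 1 := by
      have : (pp (C (1 / 2) * C 2) : CR (ce D)) = 1 := by
        rw [← C_mul]; norm_num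
      rw [map_mul] at this
      rw [← this]
      congr 1
    obtain ⟨a, ha⟩ := (trc (D := D) (B := B)).sq hφ h12 (prime_T h2) (σ : B →+* B)
      (fun z => sig_fix _ ⟨z, rfl⟩) (fun z => norm_sig z) (J := (J : Ideal (CR (ce D)))) (b := b) hb
    rw [← map_pow]
    refine (ClassGroup.mk0_eq_one_iff _).2 ⟨a, ?_⟩
    exact ha
  refine ⟨ε'.toAdditive, r'.toAdditive, s'.toAdditive, a1, a2, a3, fun g => ?_, a5, fun p hp => ?_⟩
  · have := a4 g.toMul
    show Additive.ofMul ((g.toMul * r' g.toMul * r' (r' g.toMul)) ^ (4 : ℤ)) = 0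
    rw [show ((4 : ℤ)) = ((4 : ℕ) : ℤ) from rfl, zpow_natCast, this]
    rfl
  · have := a6 p.toMul hp
    show Additive.ofMul (p.toMul ^ (2 : ℤ)) = 0
    rw [show ((2 : ℤ)) = ((2 : ℕ) : ℤ) from rfl, zpow_natCast, this]
    rfl

/-! ### The rank -/

theorem eval_sx (h2 : ¬ IsSquare (2 * D)) :
    ¬ IsSquare ((sx D).eval 1) ∧ ¬ IsSquare ((sx D).eval (-1)) := by
  have h640 : ¬ IsSquare (128 * D) := by
    rintro ⟨r, hr⟩
    apply h2
    refine ⟨r / 8, ?_⟩
    field_simp
    linear_combination hr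
  have ev1 : (sx D).eval 1 = 128 * D := by
    have := hom_sx (D := D) (evalRingHom 1)
    rw [coe_evalRingHom, eval_X, eval_C] at this
    rw [this]
    ring
  have ev2 : (sx D).eval (-1) = 128 * D := by
    have := hom_sx (D := D) (evalRingHom (-1))
    rw [coe_evalRingHom, eval_X, eval_C] at this
    rw [this]
    ring
  exact ⟨by rw [ev1]; exact h640, by rw [ev2]; exact h640⟩

/-- **The rank of the class group of the affine curve `y² = D (2 x⁶ - 30 x⁴ + 150 x² + 6)`** is twice the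
rank of the elliptic curve `Y² = X³ + 16 D³`. -/
theorem rank_X [DecidableEq F] (h2 : ¬ IsSquare (2 * D)) [IsDomain (CR (sx D))]
    (W : WeierstrassCurve.Affine F) (hW : W = G3.ellS 0 (16 * D ^ 3)) [Module.Finite ℤ W.Point] :
    Module.rank ℤ (Additive (ClassGroup (CR (sx D)))) =
      ((2 * Module.finrank ℤ W.Point : ℕ) : Cardinal) := by
  have hdA : IsDedekindDomain (CR (sx D)) := ded_sx h2
  have hM : Submonoid.powers (pp (X ^ 2 - 1) : CR (sx D)) ≤ nonZeroDivisors _ :=
    powers_le_nonZeroDivisors_of_noZeroDivisors sx_ne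
  have hdom : IsDomain (Localization.Away (pp (X ^ 2 - 1) : CR (sx D))) :=
    IsLocalization.isDomain_localization hM
  have hded : IsDedekindDomain (Localization.Away (pp (X ^ 2 - 1) : CR (sx D))) :=
    IsLocalization.isDedekindDomain (CR (sx D)) hM _
  set B := Localization.Away (pp (X ^ 2 - 1) : CR (sx D)) with hB
  have hinj : Function.Injective (algebraMap (CR (sx D)) B) := IsLocalization.injective _ hM
  -- localization
  have h1 : Module.rank ℤ (Additive (ClassGroup (CR (sx D)))) =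
      Module.rank ℤ (Additive (ClassGroup B)) := by
    refine rank_eq_of_map (ext (algebraMap (CR (sx D)) B) hinj).toAdditive.toIntLinearMap 1
      one_ne_zero (fun x hx => ?_) 1 one_ne_zero (fun y => ?_)
    · have hx' : ext (algebraMap (CR (sx D)) B) hinj x.toMul = 1 := hx
      obtain ⟨I, hI⟩ := ClassGroup.mk0_surjective x.toMul
      rw [← hI, ext_mk0, ClassGroup.mk0_eq_one_iff] at hx'
      obtain ⟨b, hb⟩ := hx'.principal
      obtain ⟨a, ha⟩ := descendP (pp (X ^ 2 - 1) : CR (sx D)) sx_ne (fun n K hK => by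
        have hfac : (pp (X ^ 2 - 1) : CR (sx D)) = pp (X - C 1) * pp (X - C (-1)) := by
          rw [← map_mul]
          congr 1
          rw [C_neg, C_1]
          ring
        rw [hfac] at hK
        exact dvd_two (prime_lin 1 (eval_sx h2).1) (prime_lin (-1) (eval_sx h2).2) n K hK)
        (I := (I : Ideal (CR (sx D)))) (b := b) hb
      have h3 : ClassGroup.mk0 I = 1 := (ClassGroup.mk0_eq_one_iff _).2 ⟨a, ha⟩
      rw [one_smul]
      exact (hI.symm.trans h3 : x.toMul = 1)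
    · obtain ⟨I, hI⟩ := ClassGroup.mk0_surjective y.toMul
      have h3 := IsLocalization.map_under (Submonoid.powers (pp (X ^ 2 - 1) : CR (sx D))) B (I : Ideal B)
      have hJ0 : Ideal.under (CR (sx D)) (I : Ideal B) ≠ ⊥ := by
        intro h
        rw [h, Ideal.map_bot] at h3
        exact nonZeroDivisors.coe_ne_zero I h3.symm
      refine ⟨Additive.ofMul (ClassGroup.mk0 ⟨_, mem_nonZeroDivisors_of_ne_zero hJ0⟩), ?_⟩
      rw [one_smul]
      show ext (algebraMap (CR (sx D)) B) hinj (ClassGroup.mk0 ⟨_, mem_nonZeroDivisors_of_ne_zero hJ0⟩) =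
        y.toMul
      rw [ext_mk0, ← hI]
      congr 1
      exact Subtype.ext h3
  have hpoly : W.polynomial = X ^ 2 - C (ce D) := by
    rw [hW, G3.ellS_poly]
    unfold ce
    simp
  have hΔ : W.Δ ≠ 0 := by
    have hD : D ≠ 0 := NeZero.ne D
    have e : 4 * (0 : F) ^ 3 + 27 * (16 * D ^ 3) ^ 2 = 6912 * D ^ 6 := by ring
    rw [hW, G3.ellS_disc, e]
    exact mul_ne_zero (by norm_num) (mul_ne_zero (by norm_num) (pow_ne_zero _ hD))
  have hns : ∀ x y : F, W.Equation x y → W.Nonsingular x y := fun x y h =>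
    (WeierstrassCurve.Affine.equation_iff_nonsingular_of_Δ_ne_zero hΔ).1 h
  have hdW : IsDedekindDomain W.CoordinateRing := by
    have key : ∀ p : F[X][X], p = X ^ 2 - C (ce D) → IsDedekindDomain (AdjoinRoot p) := by
      rintro p rfl; exact ded_ce
    exact key _ hpoly
  have hsurj := G2.toClass_surj (W := W) hns
  obtain ⟨ε, r, s, a1, a2, a3, a4, a5, a6⟩ := exists_maps (B := B) h2 W.polynomial hpoly
  rw [h1]
  refine rank_two (ε.comp (WeierstrassCurve.Affine.Point.toClass (W := W))) r s (fun p => a1 _) a2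
    a3 4 (by norm_num) a4 (fun g => ?_) 2 (by norm_num) (fun p hp => ?_)
  · obtain ⟨q, hq⟩ := a5 g
    obtain ⟨p, rfl⟩ := hsurj q
    exact ⟨p, hq⟩
  · have h3 := a6 _ hp
    rw [← map_zsmul] at h3
    exact WeierstrassCurve.Affine.Point.toClass_injective (by rw [h3, map_zero])

end Pool.Agent.H81.GD
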